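import Pool.Agent.Helper29.Smith.Statement

/-! Rooted binary trees, unrooted equivalence, and the two-component recursion. -/

set_option linter.unusedVariables false
set_option linter.unusedSectionVars false

namespace Pool.Agent.Helper29.Steiner

namespace BT

variable {α : Type}

/-- multiset of leaf labels -/
def labels : BT α → Multiset α
  | leaf a => {a}
  | node l r => labels l + labels r

/-- number of leaves -/
def size : BT α → ℕ
  | leaf _ => 1
  | node l r => size l + size r

lemma size_pos (x : BT α) : 0 < size x := by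
  induction x with
  | leaf a => simp [size]
  | node l r hl hr => simp only [size]; omega

lemma card_labels (x : BT α) : Multiset.card (labels x) = size x := by
  induction x with
  | leaf a => simp [labels, size]
  | node l r hl hr => simp [labels, size, hl, hr]

/-- substitute trees for leaves -/
def join : BT (BT α) → BT α
  | leaf a => a
  | node l r => node (join l) (join r)

/-- unrooted equivalence of pairs of rooted trees (a pair stands for the unrooted tree obtained
by joining the two roots with an edge) -/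
inductive UEq : BT α × BT α → BT α × BT α → Prop
  | refl (p) : UEq p p
  | symm {p q} : UEq p q → UEq q p
  | trans {p q r} : UEq p q → UEq q r → UEq p r
  | comm (a b : BT α) : UEq (a, b) (b, a)
  | rot (a b c : BT α) : UEq (node a b, c) (a, node b c)
  | sw (a b c : BT α) : UEq (node a b, c) (node b a, c)

lemma UEq.join {p q : BT (BT α) × BT (BT α)} (h : UEq p q) :
    UEq (BT.join p.1, BT.join p.2) (BT.join q.1, BT.join q.2) := by
  induction h with
  | refl p => exact UEq.refl _
  | symm _ ih => exact ih.symm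
  | trans _ _ ih1 ih2 => exact ih1.trans ih2
  | comm a b => exact UEq.comm _ _
  | rot a b c => exact UEq.rot _ _ _
  | sw a b c => exact UEq.sw _ _ _

lemma UEq.labels {p q : BT α × BT α} (h : UEq p q) :
    BT.labels p.1 + BT.labels p.2 = BT.labels q.1 + BT.labels q.2 := by
  induction h with
  | refl p => rfl
  | symm _ ih => exact ih.symm
  | trans _ _ ih1 ih2 => exact ih1.trans ih2
  | comm a b => exact add_comm _ _
  | rot a b c => simp only [BT.labels]; exact add_assoc _ _ _
  | sw a b c => simp only [BT.labels]; rw [add_comm (BT.labels a)]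

lemma UEq.size {p q : BT α × BT α} (h : UEq p q) :
    BT.size p.1 + BT.size p.2 = BT.size q.1 + BT.size q.2 := by
  have := congrArg Multiset.card h.labels
  simpa [card_labels] using this

/-- right-hand versions -/
lemma UEq.rot' (a b c : BT α) : UEq (a, node b c) (node a b, c) := (UEq.rot a b c).symm

lemma UEq.swr (a b c : BT α) : UEq (c, node a b) (c, node b a) :=
  (UEq.comm _ _).trans ((UEq.sw _ _ _).trans (UEq.comm _ _))

/-- re-root at a leaf of the second component -/
lemma exists_root_leaf {a : α} : ∀ (y x : BT α), a ∈ labels y →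
    ∃ z, UEq (x, y) (z, leaf a) := by
  intro y
  induction y with
  | leaf b =>
    intro x h
    simp only [labels, Multiset.mem_singleton] at h
    subst h
    exact ⟨x, UEq.refl _⟩
  | node l r hl hr =>
    intro x h
    simp only [labels, Multiset.mem_add] at h
    rcases h with h | h
    · obtain ⟨z, hz⟩ := hl (node x r) h
      exact ⟨z, (UEq.swr l r x).trans ((UEq.rot' x r l).trans hz)⟩
    · obtain ⟨z, hz⟩ := hr (node x l) h
      exact ⟨z, (UEq.rot' x l r).trans hz⟩

/-- the chain with first tree `X` and side branches `Bs` -/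
def chain (X : BT α) (Bs : List (BT α)) : BT α := Bs.foldl node X

lemma exists_chain {a : α} : ∀ (z : BT α), a ∈ labels z →
    ∃ Bs : List (BT α), ∀ c, UEq (z, c) (chain (leaf a) Bs, c) := by
  intro z
  induction z with
  | leaf b =>
    intro h
    simp only [labels, Multiset.mem_singleton] at h
    subst h
    exact ⟨[], fun c => UEq.refl _⟩
  | node l r hl hr =>
    intro h
    simp only [labels, Multiset.mem_add] at h
    rcases h with h | h
    · obtain ⟨Bs, hB⟩ := hl h
      refine ⟨Bs ++ [r], fun c => ?_⟩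
      refine (UEq.rot l r c).trans ((hB _).trans ?_)
      refine (UEq.rot' _ _ _).trans ?_
      simp only [chain, List.foldl_append, List.foldl_cons, List.foldl_nil]
      exact UEq.refl _
    · obtain ⟨Bs, hB⟩ := hr h
      refine ⟨Bs ++ [l], fun c => ?_⟩
      refine (UEq.sw l r c).trans ((UEq.rot r l c).trans ((hB _).trans ?_))
      refine (UEq.rot' _ _ _).trans ?_
      simp only [chain, List.foldl_append, List.foldl_cons, List.foldl_nil]
      exact UEq.refl _

lemma labels_chain (X : BT α) (Bs : List (BT α)) :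
    labels (chain X Bs) = labels X + (Bs.map labels).sum := by
  induction Bs generalizing X with
  | nil => simp [chain]
  | cons B Bs ih =>
    have : chain X (B :: Bs) = chain (node X B) Bs := rfl
    rw [this, ih]
    simp [labels, add_assoc]

lemma join_chain (X : BT (BT α)) (Bs : List (BT (BT α))) :
    join (chain X Bs) = chain (join X) (Bs.map join) := by
  induction Bs generalizing X with
  | nil => rfl
  | cons B Bs ih =>
    have : chain X (B :: Bs) = chain (node X B) Bs := rfl
    rw [this, ih]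
    rfl

end BT

/-- combination of two states -/
noncomputable def step (x y : ℝ × ℝ) : ℝ × ℝ :=
  (x.1 * y.1 + 3 / 4 * (x.1 * y.2 + x.2 * y.1),
    3 / 4 * (x.2 * y.2) + 1 / 4 * (x.1 * y.2 + x.2 * y.1))

/-- final pairing -/
noncomputable def dd (x y : ℝ × ℝ) : ℝ := x.1 * y.1 + x.1 * y.2 + x.2 * y.1

/-- cross product -/
noncomputable def om (x y : ℝ × ℝ) : ℝ := x.1 * y.2 - x.2 * y.1

lemma step_comm (x y : ℝ × ℝ) : step x y = step y x := by
  simp only [step, Prod.mk.injEq]; constructor <;> ring

lemma dd_comm (x y : ℝ × ℝ) : dd x y = dd y x := by simp only [dd]; ring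

lemma dd_step (x y z : ℝ × ℝ) : dd (step x y) z = dd x (step y z) := by
  simp only [dd, step]; ring

lemma om_swap (x y : ℝ × ℝ) : om x y = - om y x := by simp only [om]; ring

/-- positivity of both components -/
def Pos2 (x : ℝ × ℝ) : Prop := 0 < x.1 ∧ 0 < x.2

lemma Pos2.step {x y : ℝ × ℝ} (hx : Pos2 x) (hy : Pos2 y) : Pos2 (step x y) := by
  obtain ⟨h1, h2⟩ := hx
  obtain ⟨h3, h4⟩ := hy
  constructor <;> simp only [Steiner.step] <;> positivity

lemma Pos2.dd {x y : ℝ × ℝ} (hx : Pos2 x) (hy : Pos2 y) : 0 < dd x y := by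
  obtain ⟨h1, h2⟩ := hx
  obtain ⟨h3, h4⟩ := hy
  simp only [Steiner.dd]; positivity

/-- state of a tree -/
noncomputable def nq {α : Type} (val : α → ℝ × ℝ) : BT α → ℝ × ℝ
  | BT.leaf a => val a
  | BT.node l r => step (nq val l) (nq val r)

lemma nq_pos {α : Type} {val : α → ℝ × ℝ} (h : ∀ a, Pos2 (val a)) (x : BT α) :
    Pos2 (nq val x) := by
  induction x with
  | leaf a => exact h a
  | node l r hl hr => exact hl.step hr

lemma dd_ueq {α : Type} {val : α → ℝ × ℝ} {p q : BT α × BT α} (h : BT.UEq p q) :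
    dd (nq val p.1) (nq val p.2) = dd (nq val q.1) (nq val q.2) := by
  induction h with
  | refl p => rfl
  | symm _ ih => exact ih.symm
  | trans _ _ ih1 ih2 => exact ih1.trans ih2
  | comm a b => exact dd_comm _ _
  | rot a b c => simp only [nq]; exact dd_step _ _ _
  | sw a b c => simp only [nq]; rw [step_comm]

lemma nq_join {α : Type} {val : α → ℝ × ℝ} (x : BT (BT α)) :
    nq val (BT.join x) = nq (nq val) x := by
  induction x with
  | leaf a => rfl
  | node l r hl hr => simp only [BT.join, nq, hl, hr]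

/-- state of a list of branches folded onto a starting state -/
noncomputable def fold (X : ℝ × ℝ) (Bs : List (ℝ × ℝ)) : ℝ × ℝ := Bs.foldl step X

lemma nq_chain {α : Type} {val : α → ℝ × ℝ} (X : BT α) (Bs : List (BT α)) :
    nq val (BT.chain X Bs) = fold (nq val X) (Bs.map (nq val)) := by
  induction Bs generalizing X with
  | nil => rfl
  | cons B Bs ih =>
    have : BT.chain X (B :: Bs) = BT.chain (BT.node X B) Bs := rfl
    rw [this, ih]
    rfl

/-- the bilinear form of a list -/
noncomputable def KK (Bs : List (ℝ × ℝ)) (X Y : ℝ × ℝ) : ℝ := dd (fold X Bs) Y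

lemma KK_cons (B : ℝ × ℝ) (Bs : List (ℝ × ℝ)) (X Y : ℝ × ℝ) :
    KK (B :: Bs) X Y = KK Bs (step X B) Y := rfl

lemma KK_snoc (B : ℝ × ℝ) (Bs : List (ℝ × ℝ)) (X Y : ℝ × ℝ) :
    KK (Bs ++ [B]) X Y = KK Bs X (step Y B) := by
  simp only [KK, fold, List.foldl_append, List.foldl_cons, List.foldl_nil]
  rw [dd_step, step_comm]

/-- `KK` is bilinear: matrix entries -/
lemma KK_bilin (Bs : List (ℝ × ℝ)) : ∃ k11 k12 k21 k22 : ℝ, ∀ X Y : ℝ × ℝ,
    KK Bs X Y = k11 * (X.1 * Y.1) + k12 * (X.1 * Y.2) + k21 * (X.2 * Y.1) + k22 * (X.2 * Y.2) := by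
  induction Bs with
  | nil =>
    refine ⟨1, 1, 1, 0, fun X Y => ?_⟩
    simp only [KK, fold, List.foldl_nil, dd]; ring
  | cons B Bs ih =>
    obtain ⟨k11, k12, k21, k22, h⟩ := ih
    refine ⟨k11 * (B.1 + 3 / 4 * B.2) + k21 * (1 / 4 * B.2),
      k12 * (B.1 + 3 / 4 * B.2) + k22 * (1 / 4 * B.2),
      k11 * (3 / 4 * B.1) + k21 * (3 / 4 * B.2 + 1 / 4 * B.1),
      k12 * (3 / 4 * B.1) + k22 * (3 / 4 * B.2 + 1 / 4 * B.1), fun X Y => ?_⟩
    rw [KK_cons, h]
    simp only [step]
    ring

/-- antisymmetry defect of a list of side branches: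
`KK Bs X Y - KK Bs Y X = - om X Y * ee Bs`. -/
noncomputable def ee (Bs : List (ℝ × ℝ)) : ℝ := -(KK Bs (1, 0) (0, 1) - KK Bs (0, 1) (1, 0))

lemma KK_antisymm (Bs : List (ℝ × ℝ)) (X Y : ℝ × ℝ) :
    KK Bs X Y - KK Bs Y X = - om X Y * ee Bs := by
  obtain ⟨k11, k12, k21, k22, h⟩ := KK_bilin Bs
  simp only [ee, h, om]
  ring

/-- the special vector -/
noncomputable def zz : ℝ × ℝ := (3, -1)

lemma ee_ends (B C : ℝ × ℝ) (mid : List (ℝ × ℝ)) :
    ee (B :: (mid ++ [C])) = 1 / 16 * om B C * KK mid zz zz
      + (2 * B.1 + 3 * B.2) * (2 * C.1 + 3 * C.2) / 16 * ee mid := by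
  obtain ⟨k11, k12, k21, k22, h⟩ := KK_bilin mid
  simp only [ee, KK_cons, KK_snoc, h, zz, step, om]
  ring

lemma fold_zz {Bs : List (ℝ × ℝ)} (hB : ∀ B ∈ Bs, Pos2 B) {X : ℝ × ℝ} (h1 : 0 < X.1)
    (h2 : - X.1 / 3 ≤ X.2) : 0 < (fold X Bs).1 ∧ - (fold X Bs).1 / 3 ≤ (fold X Bs).2 := by
  induction Bs generalizing X with
  | nil => exact ⟨h1, h2⟩
  | cons B Bs ih =>
    have hB0 := hB B (by simp)
    obtain ⟨hb1, hb2⟩ := hB0
    have e : fold X (B :: Bs) = fold (step X B) Bs := rfl
    rw [e]
    apply ih (fun C hC => hB C (by simp [hC]))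
    · simp only [step]
      have : 0 < B.1 * (X.1 + 3 / 4 * X.2) + 3 / 4 * X.1 * B.2 := by
        have h3 : 0 < X.1 + 3 / 4 * X.2 := by linarith
        positivity
      linarith
    · simp only [step]
      have h3 : 0 < 3 / 4 * X.2 + 1 / 2 * X.1 := by linarith
      have h4 : 0 < 1 / 2 * X.2 + 1 / 3 * X.1 := by linarith
      have h5 : 0 < B.2 * (3 / 4 * X.2 + 1 / 2 * X.1) + B.1 * (1 / 2 * X.2 + 1 / 3 * X.1) := by
        positivity
      nlinarith

lemma KK_zz_pos {Bs : List (ℝ × ℝ)} (hB : ∀ B ∈ Bs, Pos2 B) : 0 < KK Bs zz zz := by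
  have h := fold_zz hB (X := zz) (by simp [zz]) (by simp [zz])
  simp only [KK, dd, zz] at h ⊢
  linarith [h.1, h.2]

/-- The exchange inequality. `a` and `b` are the end leaves, `B :: mid ++ [C]` the side branches.
One of the two swaps (bringing `a` and `b` together) does not increase the determinant. -/
theorem exchange {a b B C : ℝ × ℝ} {mid : List (ℝ × ℝ)} (ha : Pos2 a) (hb : Pos2 b)
    (hB : Pos2 B) (hC : Pos2 C) (hmid : ∀ D ∈ mid, Pos2 D)
    (h1 : 0 ≤ om B b) (h2 : 0 ≤ om C a) :
    (KK mid (step a b) (step C B) + 1 / 16 * om B b * om C a * KK mid zz zz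
        ≤ KK mid (step a B) (step b C)) ∨
    (KK mid (step C B) (step b a) + 1 / 16 * om B b * om C a * KK mid zz zz
        ≤ KK mid (step a B) (step b C)) := by
  rcases le_total (ee mid) 0 with he | he
  · left
    have key := KK_antisymm (a :: (mid ++ [C])) B b
    rw [KK_cons, KK_snoc, KK_cons, KK_snoc, ee_ends] at key
    rw [step_comm B a, step_comm b a] at key
    rw [step_comm C B]
    have h3 : 0 ≤ -((2 * a.1 + 3 * a.2) * (2 * C.1 + 3 * C.2) / 16 * ee mid) := by
      obtain ⟨_, _⟩ := ha
      obtain ⟨_, _⟩ := hC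
      have : 0 ≤ (2 * a.1 + 3 * a.2) * (2 * C.1 + 3 * C.2) / 16 := by positivity
      nlinarith
    have h4 : om a C = - om C a := om_swap a C
    rw [h4] at key
    nlinarith [mul_nonneg h1 h3]
  · right
    have key := KK_antisymm (B :: (mid ++ [b])) a C
    rw [KK_cons, KK_snoc, KK_cons, KK_snoc, ee_ends] at key
    rw [step_comm C b, step_comm a b] at key
    have h3 : 0 ≤ (2 * B.1 + 3 * B.2) * (2 * b.1 + 3 * b.2) / 16 * ee mid := by
      obtain ⟨_, _⟩ := hB
      obtain ⟨_, _⟩ := hb
      positivity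
    have h4 : om a C = - om C a := om_swap a C
    rw [h4] at key
    nlinarith [mul_nonneg h2 h3]

end Pool.Agent.Helper29.Steiner
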