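import Pool.Agent.Helper29.Steiner.Basic

/-! The Huffman step and optimality of the explicit merging order. -/

set_option linter.unusedVariables false
set_option linter.unusedSectionVars false

namespace Pool.Agent.Helper29.Steiner

open BT

/-- value of a state -/
noncomputable def vv (x : ℝ × ℝ) : ℝ := x.1 / x.2

lemma om_nonneg_iff {x y : ℝ × ℝ} (hx : Pos2 x) (hy : Pos2 y) : 0 ≤ om x y ↔ vv y ≤ vv x := by
  obtain ⟨_, hx2⟩ := hx
  obtain ⟨_, hy2⟩ := hy
  simp only [om, vv]
  rw [div_le_div_iff₀ hy2 hx2]
  constructor <;> intro h <;> nlinarith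

lemma om_pos_iff {x y : ℝ × ℝ} (hx : Pos2 x) (hy : Pos2 y) : 0 < om x y ↔ vv y < vv x := by
  obtain ⟨_, hx2⟩ := hx
  obtain ⟨_, hy2⟩ := hy
  simp only [om, vv]
  rw [div_lt_div_iff₀ hy2 hx2]
  constructor <;> intro h <;> nlinarith

/-- value of a combination -/
noncomputable def mm (p q : ℝ) : ℝ := (4 * p * q + 3 * (p + q)) / (3 + p + q)

lemma vv_step {x y : ℝ × ℝ} (hx : Pos2 x) (hy : Pos2 y) : vv (step x y) = mm (vv x) (vv y) := by
  obtain ⟨hx1, hx2⟩ := hx
  obtain ⟨hy1, hy2⟩ := hy
  simp only [vv, step, mm]
  field_simp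
  ring

lemma mm_mono {p q p' q' : ℝ} (hp : 0 < p) (hq : 0 < q) (h1 : p ≤ p') (h2 : q ≤ q') :
    mm p q ≤ mm p' q' := by
  have hp' : 0 < p' := by linarith
  have hq' : 0 < q' := by linarith
  have e1 : mm p q ≤ mm p' q := by
    simp only [mm]
    rw [div_le_div_iff₀ (by positivity) (by positivity)]
    nlinarith [mul_nonneg (sub_nonneg.2 h1) (sq_nonneg (2 * q + 3))]
  have e2 : mm p' q ≤ mm p' q' := by
    simp only [mm]
    rw [div_le_div_iff₀ (by positivity) (by positivity)]
    nlinarith [mul_nonneg (sub_nonneg.2 h2) (sq_nonneg (2 * p' + 3))]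
  exact e1.trans e2

lemma mm_strict {p q p' q' : ℝ} (hp : 0 < p) (hq : 0 < q) (h1 : p ≤ p') (h2 : q < q') :
    mm p q < mm p' q' := by
  have hp' : 0 < p' := by linarith
  have hq' : 0 < q' := by linarith
  have e1 : mm p q ≤ mm p' q := mm_mono hp hq h1 le_rfl
  have e2 : mm p' q < mm p' q' := by
    simp only [mm]
    rw [div_lt_div_iff₀ (by positivity) (by positivity)]
    nlinarith [mul_pos (sub_pos.2 h2) (by positivity : 0 < (2 * p' + 3) ^ 2)]
  exact lt_of_le_of_lt e1 e2

lemma mm_self {p : ℝ} (hp : 0 < p) : mm p p = 2 * p := by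
  simp only [mm]; rw [div_eq_iff (by positivity)]; ring

lemma mm_comm (p q : ℝ) : mm p q = mm q p := by
  simp only [mm]; congr 1 <;> ring

lemma vv_pos {x : ℝ × ℝ} (hx : Pos2 x) : 0 < vv x := div_pos hx.1 hx.2

/-- a compound tree has value at least twice the lower bound of its leaves -/
lemma vv_tree_ge {α : Type} {val : α → ℝ × ℝ} (hv : ∀ a, Pos2 (val a)) {β : ℝ} (hβ : 0 < β)
    (B : BT α) (h : ∀ c ∈ labels B, β ≤ vv (val c)) :
    (∃ c, B = leaf c ∧ c ∈ labels B) ∨ 2 * β ≤ vv (nq val B) := by
  induction B with
  | leaf c => left; exact ⟨c, rfl, by simp [labels]⟩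
  | node l r hl hr =>
    right
    have h1 : β ≤ vv (nq val l) := by
      rcases hl (fun c hc => h c (by simp [labels, hc])) with ⟨c, hc, hc2⟩ | h2
      · rw [hc]; exact h c (by simp [labels, hc2])
      · linarith
    have h2 : β ≤ vv (nq val r) := by
      rcases hr (fun c hc => h c (by simp [labels, hc])) with ⟨c, hc, hc2⟩ | h2
      · rw [hc]; exact h c (by simp [labels, hc2])
      · linarith
    rw [nq, vv_step (nq_pos hv _) (nq_pos hv _), ← mm_self hβ]
    exact mm_mono hβ hβ h1 h2

/-- determinant value of a pair -/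
noncomputable def DD {α : Type} (val : α → ℝ × ℝ) (p : BT α × BT α) : ℝ :=
  dd (nq val p.1) (nq val p.2)

lemma DD_ueq {α : Type} {val : α → ℝ × ℝ} {p q : BT α × BT α} (h : UEq p q) :
    DD val p = DD val q := dd_ueq h

/-- flatten a pair -/
def fl {α : Type} (p : BT (BT α) × BT (BT α)) : BT α × BT α := (join p.1, join p.2)

lemma DD_fl {α : Type} (val : α → ℝ × ℝ) (p : BT (BT α) × BT (BT α)) :
    DD val (fl p) = DD (nq val) p := by
  simp only [DD, fl, nq_join]

lemma DD_chain {α : Type} (val : α → ℝ × ℝ) (X Y : BT α) (Bs : List (BT α)) :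
    DD val (chain X Bs, Y) = KK (Bs.map (nq val)) (nq val X) (nq val Y) := by
  simp only [DD, nq_chain, KK]

/-- a nonempty-middle list has two ends -/
lemma list_ends {β : Type} (l : List β) (h : 2 ≤ l.length) :
    ∃ B mid C, l = B :: (mid ++ [C]) := by
  match l, h with
  | B :: C :: t, _ =>
    refine ⟨B, (C :: t).dropLast, (C :: t).getLast (by simp), ?_⟩
    rw [List.dropLast_append_getLast]

/-- rooted congruence -/
def RC {α : Type} (x y : BT α) : Prop := ∀ c, UEq (x, c) (y, c)

lemma RC.refl {α : Type} (x : BT α) : RC x x := fun _ => UEq.refl _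

lemma RC.symm {α : Type} {x y : BT α} (h : RC x y) : RC y x := fun c => (h c).symm

lemma RC.trans {α : Type} {x y z : BT α} (h : RC x y) (h' : RC y z) : RC x z :=
  fun c => (h c).trans (h' c)

lemma RC.node {α : Type} {x y x' y' : BT α} (h : RC x x') (h' : RC y y') :
    RC (BT.node x y) (BT.node x' y') := by
  intro c
  refine (UEq.rot x y c).trans ((h _).trans ((UEq.rot' x' y c).trans ?_))
  refine (UEq.sw _ _ _).trans ((UEq.rot _ _ _).trans ((h' _).trans ?_))
  exact (UEq.rot' _ _ _).trans (UEq.sw _ _ _)

lemma RC.swap {α : Type} (x y : BT α) : RC (BT.node x y) (BT.node y x) := fun c => UEq.sw _ _ _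

lemma RC.right {α : Type} {x y : BT α} (h : RC x y) (c : BT α) : UEq (c, x) (c, y) :=
  (UEq.comm _ _).trans ((h c).trans (UEq.comm _ _))

lemma RC.pair {α : Type} {x y x' y' : BT α} (h : RC x x') (h' : RC y y') :
    UEq (x, y) (x', y') := (h y).trans (h'.right x')

lemma RC.chain {α : Type} {x y : BT α} (h : RC x y) (Bs : List (BT α)) :
    RC (BT.chain x Bs) (BT.chain y Bs) := by
  induction Bs generalizing x y with
  | nil => exact h
  | cons B Bs ih => exact ih (h.node (RC.refl B))

theorem huffStep {α : Type} (val : α → ℝ × ℝ) (hv : ∀ c, Pos2 (val c))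
    (a b : BT α) (rest : Multiset (BT α)) (hrest : rest ≠ 0)
    (T : BT (BT α) × BT (BT α)) (hT : labels T.1 + labels T.2 = a ::ₘ b ::ₘ rest)
    (hab : vv (nq val a) ≤ vv (nq val b)) (hb : ∀ c ∈ rest, vv (nq val b) ≤ vv (nq val c))
    (tie1 : ∀ c ∈ rest, vv (nq val c) = vv (nq val b) → c = b)
    (tie2 : ∀ c ∈ rest, vv (nq val c) = vv (nq val a) → c = a)
    (M : BT α) (hM : M = node a b ∨ M = node b a) :
    ∃ R : BT (BT α) × BT (BT α), labels R.1 + labels R.2 = M ::ₘ rest ∧
      (DD val (fl R) < DD val (fl T) ∨ UEq (fl T) (fl R)) := by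
  have hV : ∀ c, Pos2 (nq val c) := nq_pos hv
  have hMnq : nq val M = step (nq val a) (nq val b) := by
    rcases hM with rfl | rfl
    · rfl
    · rw [nq, step_comm]
  have hMR : RC (node a b) M := by
    rcases hM with rfl | rfl
    · exact RC.refl _
    · exact RC.swap _ _
  -- bring `b` to the root
  have hbmem : b ∈ labels T.1 + labels T.2 := by rw [hT]; simp
  obtain ⟨z, hz⟩ : ∃ z, UEq T (z, leaf b) := by
    rcases Multiset.mem_add.1 hbmem with h | h
    · obtain ⟨z, hz⟩ := exists_root_leaf T.1 T.2 h
      exact ⟨z, (UEq.comm T.1 T.2).trans hz⟩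
    · exact exists_root_leaf T.2 T.1 h
  have hzl := hz.labels
  rw [hT] at hzl
  simp only [labels] at hzl
  have hzl' : labels z = a ::ₘ rest := by
    have : labels z + {b} = (a ::ₘ rest) + {b} := by
      rw [← hzl, Multiset.cons_swap, add_comm _ ({b} : Multiset (BT α)), Multiset.singleton_add]
    exact add_right_cancel this
  have hamem : a ∈ labels z := by rw [hzl']; simp
  obtain ⟨Bs, hBs⟩ := exists_chain z hamem
  have hTc : UEq T (chain (leaf a) Bs, leaf b) := hz.trans (hBs _)
  have hlab : (Bs.map labels).sum = rest := by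
    have h1 := (hBs (leaf b)).labels
    simp only [labels_chain, labels] at h1
    rw [hzl'] at h1
    have h2 := add_right_cancel h1
    rw [← Multiset.singleton_add] at h2
    exact (add_left_cancel h2).symm
  have hBlab : ∀ B ∈ Bs, ∀ c ∈ labels B, c ∈ rest := by
    intro B hB c hc
    rw [← hlab]
    exact Multiset.mem_of_le (List.single_le_sum (by intro x _; exact Multiset.zero_le x) _
      (List.mem_map_of_mem hB)) hc
  have hflT : UEq (fl T) (fl (chain (leaf a) Bs, leaf b)) := hTc.join
  have hDT : DD val (fl T) = KK (Bs.map (nq (nq val))) (nq val a) (nq val b) := by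
    rw [DD_ueq hflT, DD_fl, DD_chain]; rfl
  -- value facts for branches
  have hbpos : 0 < vv (nq val b) := vv_pos (hV b)
  have hbr : ∀ B ∈ Bs, (∃ c ∈ rest, B = leaf c) ∨ 2 * vv (nq val b) ≤ vv (nq (nq val) B) := by
    intro B hB
    rcases vv_tree_ge (val := nq val) hV hbpos B (fun c hc => hb c (hBlab B hB c hc)) with
      ⟨c, hc, hc2⟩ | h
    · exact Or.inl ⟨c, hBlab B hB c hc2, hc⟩
    · exact Or.inr h
  have hbr' : ∀ B ∈ Bs, vv (nq val b) ≤ vv (nq (nq val) B) := by
    intro B hB
    rcases hbr B hB with ⟨c, hc, rfl⟩ | h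
    · exact hb c hc
    · linarith
  rcases Nat.lt_or_ge Bs.length 2 with hlen | hlen
  · -- at most one branch
    match Bs, hlen with
    | [], _ =>
      exfalso
      simp only [List.map_nil, List.sum_nil] at hlab
      exact hrest hlab.symm
    | [B], _ =>
      refine ⟨(leaf M, B), ?_, Or.inr ?_⟩
      · simp only [List.map_cons, List.map_nil, List.sum_cons, List.sum_nil, add_zero] at hlab
        simp only [labels, hlab, Multiset.singleton_add]
      · refine hflT.trans ?_
        simp only [fl, chain, List.foldl_cons, List.foldl_nil, join]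
        -- (node a (join B), b) ~ (node a b, join B)
        exact (UEq.sw _ _ _).trans ((UEq.rot _ _ _).trans ((UEq.comm _ _).trans (hMR _)))
  · obtain ⟨B, mid, C, rfl⟩ := list_ends Bs hlen
    have hBmem : B ∈ B :: (mid ++ [C]) := by simp
    have hCmem : C ∈ B :: (mid ++ [C]) := by simp
    have hDT' : DD val (fl T) = KK (mid.map (nq (nq val))) (step (nq val a) (nq (nq val) B))
        (step (nq val b) (nq (nq val) C)) := by
      rw [hDT]
      simp only [List.map_cons, List.map_append, List.map_nil]
      rw [KK_cons, KK_snoc]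
    have hsum : labels B + ((mid.map labels).sum + labels C) = rest := by
      rw [← hlab]
      simp only [List.map_cons, List.map_append, List.map_nil, List.sum_cons, List.sum_append,
        List.sum_nil, add_zero]
    have hposm : ∀ D ∈ mid.map (nq (nq val)), Pos2 D := by
      intro D hD
      obtain ⟨x, _, rfl⟩ := List.mem_map.1 hD
      exact nq_pos hV x
    have hPB : Pos2 (nq (nq val) B) := nq_pos hV B
    have hPC : Pos2 (nq (nq val) C) := nq_pos hV C
    have hB1 := hbr' B hBmem
    have hC1 := hbr' C hCmem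
    -- the two candidate trees
    let R1 : BT (BT α) × BT (BT α) := (chain (leaf M) mid, node C B)
    let R2' : BT (BT α) × BT (BT α) := (chain (node C B) mid, leaf M)
    have hlabR1 : labels R1.1 + labels R1.2 = M ::ₘ rest := by
      simp only [R1, labels_chain, labels]
      rw [← hsum, ← Multiset.singleton_add]; abel
    have hlabR2 : labels R2'.1 + labels R2'.2 = M ::ₘ rest := by
      simp only [R2', labels_chain, labels]
      rw [← hsum, ← Multiset.singleton_add]; abel
    have hDR1 : DD val (fl R1) = KK (mid.map (nq (nq val))) (step (nq val a) (nq val b))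
        (step (nq (nq val) C) (nq (nq val) B)) := by
      rw [DD_fl, DD_chain, ← hMnq]; rfl
    have hDR2 : DD val (fl R2') = KK (mid.map (nq (nq val)))
        (step (nq (nq val) C) (nq (nq val) B)) (step (nq val b) (nq val a)) := by
      rw [DD_fl, DD_chain, step_comm (nq val b), ← hMnq]; rfl
    rcases hB1.lt_or_eq with hB2 | hB2
    · rcases (hab.trans hC1).lt_or_eq with hC2 | hC2
      · -- strict case
        have h1 : 0 < om (nq (nq val) B) (nq val b) := (om_pos_iff hPB (hV b)).2 hB2
        have h2 : 0 < om (nq (nq val) C) (nq val a) := (om_pos_iff hPC (hV a)).2 hC2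
        have h3 := KK_zz_pos hposm
        have h4 : 0 < 1 / 16 * om (nq (nq val) B) (nq val b) * om (nq (nq val) C) (nq val a) *
            KK (mid.map (nq (nq val))) zz zz := by positivity
        rcases exchange (hV a) (hV b) hPB hPC hposm h1.le h2.le with h | h
        · refine ⟨R1, hlabR1, Or.inl ?_⟩
          rw [hDR1, hDT']; linarith
        · refine ⟨R2', hlabR2, Or.inl ?_⟩
          rw [hDR2, hDT']; linarith
      · -- C has the value of a : then C is the leaf a
        have hval : vv (nq (nq val) C) = vv (nq val b) := le_antisymm (by linarith) hC1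
        rcases hbr C hCmem with ⟨c, hc, rfl⟩ | h
        · have hca : c = a := tie2 c hc hC2.symm
          subst hca
          -- b and c = a are siblings
          refine ⟨(chain (leaf c) (B :: mid), leaf M), ?_, Or.inr ?_⟩
          · simp only [labels_chain, labels, List.map_cons, List.sum_cons]
            rw [← hsum, ← Multiset.singleton_add]
            simp only [labels]; abel
          · refine hflT.trans ?_
            simp only [fl, join_chain, List.map_cons, List.map_append, List.map_nil, join]
            simp only [chain, List.foldl_cons, List.foldl_append, List.foldl_nil]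
            exact (UEq.rot _ _ _).trans (hMR.right _)
        · exfalso; linarith
    · -- B has the value of b: then B is the leaf b
      rcases hbr B hBmem with ⟨c, hc, rfl⟩ | h
      · have hcb : c = b := tie1 c hc hB2.symm
        subst hcb
        refine ⟨(chain (leaf M) (mid ++ [C]), leaf c), ?_, Or.inr ?_⟩
        · simp only [labels_chain, labels, List.map_append, List.sum_append, List.map_cons,
            List.map_nil, List.sum_cons, List.sum_nil, add_zero]
          rw [← hsum, ← Multiset.singleton_add]
          simp only [labels]; abel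
        · refine hflT.trans ?_
          simp only [fl, join_chain, List.map_cons, List.map_append, List.map_nil]
          exact (hMR.chain _) _
      · exfalso; linarith

end Pool.Agent.Helper29.Steiner
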