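import Pool.Agent.Helper29.Steiner.Huffman

/-! Optimality: among all unrooted trees with `d` equal leaves, the determinant is uniquely
minimised by the explicit tree `Uc (d-1) 0 o o`. -/

set_option linter.unusedVariables false
set_option linter.unusedSectionVars false

namespace Pool.Agent.Helper29.Steiner

open BT

variable {α : Type}

/-- The greedy merging of `m` copies of `A`, `p` copies of `AA` and one copy of `S`. -/
def Uc : ℕ → ℕ → BT α → BT α → BT α × BT α
  | 0, 0, A, S => (A, S)
  | 1, 0, A, S => (A, S)
  | 0, 1, A, S => (node A A, S)
  | 1, p + 1, A, S => Uc (p + 1) 0 (node A A) (node A S)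
  | 0, p + 2, A, S => Uc (p + 1) 0 (node A A) (node (node A A) S)
  | m + 2, p, A, S => Uc m (p + 1) A S
termination_by m p => m + p

lemma labels_eq_singleton {x : BT α} {a : α} (h : labels x = {a}) : x = leaf a := by
  cases x with
  | leaf b =>
    simp only [labels] at h
    rw [Multiset.singleton_inj.1 h]
  | node l r =>
    exfalso
    have := congrArg Multiset.card h
    simp only [labels, Multiset.card_add, card_labels, Multiset.card_singleton] at this
    have h1 := size_pos l
    have h2 := size_pos r
    omega

/-- a pair with two labels -/
lemma pair_two {T : BT α × BT α} {a b : α} (h : labels T.1 + labels T.2 = {a, b}) :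
    UEq T (leaf a, leaf b) := by
  obtain ⟨x, y⟩ := T
  simp only at h
  have hc := congrArg Multiset.card h
  simp only [Multiset.card_add, card_labels, Multiset.insert_eq_cons, Multiset.card_cons,
    Multiset.card_singleton] at hc
  have h1 := size_pos x
  have h2 := size_pos y
  have hx : size x = 1 := by omega
  have hy : size y = 1 := by omega
  obtain ⟨c, hc'⟩ : ∃ c, x = leaf c := by
    cases x with
    | leaf c => exact ⟨c, rfl⟩
    | node l r =>
      have := size_pos l; have := size_pos r; simp only [size] at hx; omega
  obtain ⟨e, he'⟩ : ∃ c, y = leaf c := by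
    cases y with
    | leaf c => exact ⟨c, rfl⟩
    | node l r =>
      have := size_pos l; have := size_pos r; simp only [size] at hy; omega
  subst hc' he'
  simp only [labels] at h
  have h3 : ({c, e} : Multiset α) = {a, b} := by
    rw [← h]; rfl
  have h3' := h3
  rw [Multiset.insert_eq_cons, Multiset.insert_eq_cons, Multiset.cons_eq_cons] at h3'
  rcases h3' with ⟨h4, h5⟩ | ⟨h4, cs, h5, h6⟩
  · rw [Multiset.singleton_inj] at h5
    subst h4 h5; exact UEq.refl _
  · have hcs : cs = 0 := by
      have := congrArg Multiset.card h5
      simp only [Multiset.card_singleton, Multiset.card_cons] at this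
      exact Multiset.card_eq_zero.1 (by omega)
    subst hcs
    rw [Multiset.cons_zero, Multiset.singleton_inj] at h5 h6
    subst h5 h6
    exact UEq.comm _ _

/-- invariant of a configuration -/
def Inv (val : α → ℝ × ℝ) (A S : BT α) : Prop :=
  vv (nq val S) < 2 * vv (nq val A) ∧ (S = A ∨ vv (nq val A) < vv (nq val S))

lemma Inv.le {val : α → ℝ × ℝ} {A S : BT α} (h : Inv val A S) :
    vv (nq val A) ≤ vv (nq val S) := by
  rcases h.2 with h | h
  · rw [h]
  · exact h.le

lemma vv_AA {val : α → ℝ × ℝ} (hv : ∀ c, Pos2 (val c)) (A : BT α) :
    vv (nq val (node A A)) = 2 * vv (nq val A) := by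
  rw [nq, vv_step (nq_pos hv _) (nq_pos hv _), mm_self (vv_pos (nq_pos hv _))]

/-- the configuration of labels -/
def cfg (m p : ℕ) (A S : BT α) : Multiset (BT α) :=
  Multiset.replicate m A + (Multiset.replicate p (node A A) + {S})

theorem opt_aux (val : α → ℝ × ℝ) (hv : ∀ c, Pos2 (val c)) : ∀ (n m p : ℕ) (A S : BT α),
    m + p = n + 1 → Inv val A S → ∀ T : BT (BT α) × BT (BT α),
    labels T.1 + labels T.2 = cfg m p A S →
    DD val (Uc m p A S) < DD val (fl T) ∨ UEq (fl T) (Uc m p A S) := by
  intro n
  induction n with
  | zero =>
    intro m p A S hmp hI T hT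
    right
    have hcase : (m = 1 ∧ p = 0) ∨ (m = 0 ∧ p = 1) := by omega
    rcases hcase with ⟨rfl, rfl⟩ | ⟨rfl, rfl⟩
    · simp only [cfg, Multiset.replicate_one, Multiset.replicate_zero, zero_add] at hT
      have := pair_two (T := T) (a := A) (b := S) (by rw [hT]; rfl)
      have h2 := this.join
      simp only [join] at h2
      rw [Uc]
      exact h2
    · simp only [cfg, Multiset.replicate_one, Multiset.replicate_zero, zero_add] at hT
      have := pair_two (T := T) (a := node A A) (b := S) (by rw [hT]; rfl)
      have h2 := this.join
      simp only [join] at h2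
      rw [Uc]
      exact h2
  | succ n ih =>
    intro m p A S hmp hI T hT
    have hV : ∀ c, Pos2 (nq val c) := nq_pos hv
    have hA := vv_pos (hV A)
    have hS := vv_pos (hV S)
    have hAA := vv_AA hv A
    -- finishing step
    have fin : ∀ (a b : BT α) (rest : Multiset (BT α)) (m' p' : ℕ) (A' S' : BT α),
        rest ≠ 0 → cfg m p A S = a ::ₘ b ::ₘ rest →
        vv (nq val a) ≤ vv (nq val b) → (∀ c ∈ rest, vv (nq val b) ≤ vv (nq val c)) →
        (∀ c ∈ rest, vv (nq val c) = vv (nq val b) → c = b) →
        (∀ c ∈ rest, vv (nq val c) = vv (nq val a) → c = a) →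
        (∃ M, (M = node a b ∨ M = node b a) ∧ M ::ₘ rest = cfg m' p' A' S') →
        m' + p' = n + 1 → Inv val A' S' →
        Uc m p A S = Uc m' p' A' S' →
        DD val (Uc m p A S) < DD val (fl T) ∨ UEq (fl T) (Uc m p A S) := by
      intro a b rest m' p' A' S' hr hcfg hab hb t1 t2 ⟨M, hM, hcfg'⟩ hn hI' hU
      obtain ⟨R, hR, hR2⟩ := huffStep val hv a b rest hr T (hT.trans hcfg) hab hb t1 t2 M hM
      have h3 := ih m' p' A' S' hn hI' R (hR.trans hcfg')
      rw [hU]
      rcases hR2 with h | h
      · rcases h3 with h4 | h4
        · exact Or.inl (h4.trans h)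
        · left; rw [← DD_ueq h4]; exact h
      · rcases h3 with h4 | h4
        · left; rw [DD_ueq h]; exact h4
        · exact Or.inr (h.trans h4)
    have hrep : ∀ {k : ℕ} {c : BT α}, c ∈ Multiset.replicate k (node A A) → c = node A A :=
      fun h => Multiset.eq_of_mem_replicate h
    match m, p, hmp with
    | 0, p, hmp =>
      obtain ⟨p', rfl⟩ : ∃ p', p = p' + 2 := ⟨n, by omega⟩
      have hnS : vv (nq val (node (node A A) S)) = mm (2 * vv (nq val A)) (vv (nq val S)) := by
        rw [nq, vv_step (hV _) (hV _), hAA]
      have hle := hI.le
      apply fin S (node A A) (Multiset.replicate (p' + 1) (node A A)) (p' + 1) 0 (node A A)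
        (node (node A A) S)
      · intro h
        have := congrArg Multiset.card h
        simp at this
      · simp only [cfg, Multiset.replicate_zero, zero_add]
        rw [Multiset.replicate_succ, add_comm, Multiset.singleton_add]
      · rw [hAA]; exact hI.1.le
      · intro c hc; rw [hrep hc]
      · intro c hc _; exact hrep hc
      · intro c hc h
        rw [hrep hc, hAA] at h
        exact absurd h (ne_of_gt hI.1)
      · refine ⟨node (node A A) S, Or.inr rfl, ?_⟩
        simp only [cfg, Multiset.replicate_zero, zero_add]
        rw [← Multiset.singleton_add]; exact add_comm _ _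
      · omega
      · constructor
        · rw [hnS, hAA]
          have h1 : mm (2 * vv (nq val A)) (vv (nq val S)) <
              mm (2 * vv (nq val A)) (2 * vv (nq val A)) :=
            mm_strict (by linarith) hS le_rfl hI.1
          rw [mm_self (by linarith)] at h1
          exact h1
        · right
          rw [hnS, hAA]
          have h1 : mm (vv (nq val A)) (vv (nq val A)) <
              mm (vv (nq val S)) (2 * vv (nq val A)) :=
            mm_strict hA hA hle (by linarith)
          rw [mm_self hA, mm_comm] at h1
          exact h1
      · rw [Uc]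
    | 1, p, hmp =>
      obtain ⟨p', rfl⟩ : ∃ p', p = p' + 1 := ⟨n, by omega⟩
      have hnS : vv (nq val (node A S)) = mm (vv (nq val A)) (vv (nq val S)) := by
        rw [nq, vv_step (hV _) (hV _)]
      have hle := hI.le
      apply fin A S (Multiset.replicate (p' + 1) (node A A)) (p' + 1) 0 (node A A) (node A S)
      · intro h
        have := congrArg Multiset.card h
        simp at this
      · simp only [cfg, Multiset.replicate_one]
        rw [← Multiset.singleton_add, ← Multiset.singleton_add, add_comm _ ({S} : Multiset (BT α))]
      · exact hle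
      · intro c hc; rw [hrep hc, hAA]; exact hI.1.le
      · intro c hc h
        rw [hrep hc, hAA] at h
        exact absurd h (ne_of_gt hI.1)
      · intro c hc h
        rw [hrep hc, hAA] at h
        linarith
      · refine ⟨node A S, Or.inl rfl, ?_⟩
        simp only [cfg, Multiset.replicate_zero, zero_add]
        rw [← Multiset.singleton_add]; exact add_comm _ _
      · omega
      · constructor
        · rw [hnS, hAA]
          have h1 : mm (vv (nq val A)) (vv (nq val S)) <
              mm (2 * vv (nq val A)) (2 * vv (nq val A)) :=
            mm_strict hA hS (by linarith) hI.1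
          rw [mm_self (by linarith)] at h1
          exact h1
        · rcases hI.2 with h | h
          · left; rw [h]
          · right
            rw [hnS, hAA, ← mm_self hA]
            exact mm_strict hA hA le_rfl h
      · rw [Uc]
    | m' + 2, p, hmp =>
      have hle := hI.le
      have hmem : ∀ c ∈ cfg m' p A S, c = A ∨ c = node A A ∨ c = S := by
        intro c hc
        simp only [cfg, Multiset.mem_add, Multiset.mem_singleton] at hc
        rcases hc with h | h | h
        · exact Or.inl (Multiset.eq_of_mem_replicate h)
        · exact Or.inr (Or.inl (hrep h))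
        · exact Or.inr (Or.inr h)
      have htie : ∀ c ∈ cfg m' p A S, vv (nq val c) = vv (nq val A) → c = A := by
        intro c hc h
        rcases hmem c hc with rfl | rfl | rfl
        · rfl
        · rw [hAA] at h; linarith
        · rcases hI.2 with h2 | h2
          · exact h2
          · exact absurd h (ne_of_gt h2)
      apply fin A A (cfg m' p A S) m' (p + 1) A S
      · intro h
        have := congrArg Multiset.card h
        simp [cfg] at this
      · simp only [cfg]
        rw [Multiset.replicate_succ, Multiset.replicate_succ, Multiset.cons_add, Multiset.cons_add]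
      · exact le_rfl
      · intro c hc
        rcases hmem c hc with rfl | rfl | rfl
        · exact le_rfl
        · rw [hAA]; linarith
        · exact hle
      · exact htie
      · exact htie
      · refine ⟨node A A, Or.inl rfl, ?_⟩
        simp only [cfg]
        rw [Multiset.replicate_succ, Multiset.cons_add, Multiset.add_cons]
      · omega
      · exact hI
      · rw [Uc]

/-- trees as trees of one-leaf trees -/
def lift : BT α → BT (BT α)
  | leaf a => leaf (leaf a)
  | node l r => node (lift l) (lift r)

lemma join_lift (x : BT α) : join (lift x) = x := by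
  induction x with
  | leaf a => rfl
  | node l r hl hr => simp only [lift, join, hl, hr]

lemma labels_lift (x : Tr) : labels (lift x) = Multiset.replicate (size x) o := by
  induction x with
  | leaf a => simp [lift, labels, size]
  | node l r hl hr => simp only [lift, labels, size, hl, hr, Multiset.replicate_add]

/-- **Optimality.** Among all unrooted binary trees with `d ≥ 2` leaves, for every `t > 0` the
determinant `DD` is minimised exactly by `Uc (d-1) 0 o o`. -/
theorem opt (t : ℝ) (ht : 0 < t) (p : Tr × Tr) :
    DD (fun _ => (t, 1)) (Uc (size p.1 + size p.2 - 1) 0 o o) < DD (fun _ => (t, 1)) p ∨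
      UEq p (Uc (size p.1 + size p.2 - 1) 0 o o) := by
  have h1 := size_pos p.1
  have h2 := size_pos p.2
  have hv : ∀ c : Unit, Pos2 ((fun _ => (t, 1)) c : ℝ × ℝ) := fun _ => ⟨ht, one_pos⟩
  have hI : Inv (fun _ : Unit => ((t, 1) : ℝ × ℝ)) o o := by
    refine ⟨?_, Or.inl rfl⟩
    have : 0 < vv (nq (fun _ : Unit => ((t, 1) : ℝ × ℝ)) o) := vv_pos (nq_pos hv _)
    linarith
  have := opt_aux (fun _ => (t, 1)) hv (size p.1 + size p.2 - 2) (size p.1 + size p.2 - 1) 0 o o
    (by omega) hI (lift p.1, lift p.2) (by
      simp only [labels_lift, cfg, Multiset.replicate_zero, zero_add]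
      rw [← Multiset.replicate_add]
      have h3 : size p.1 + size p.2 = (size p.1 + size p.2 - 1) + 1 := by omega
      conv_lhs => rw [h3]
      rw [Multiset.replicate_succ, ← Multiset.singleton_add, add_comm])
  simpa only [fl, join_lift, Prod.mk.eta] using this

end Pool.Agent.Helper29.Steiner
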