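import Pool.Agent.Helper29.Steiner.Opt

/-! The good binary trees of the problem file and their identification with `Uc`. -/

set_option linter.unusedVariables false
set_option linter.unusedSectionVars false

namespace Pool.Agent.Helper29.Steiner

open BT

variable {α : Type}

/-- `k`-fold doubling of `A` -/
def Fsub : ℕ → BT α → BT α
  | 0, A => A
  | k + 1, A => node (Fsub k A) (Fsub k A)

lemma Fsub_node (k : ℕ) (A : BT α) : Fsub k (node A A) = Fsub (k + 1) A := by
  induction k with
  | zero => rfl
  | succ k ih => rw [Fsub, ih]; rfl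

lemma fullTree_eq (k : ℕ) : fullTree k = Fsub k o := by
  induction k with
  | zero => rfl
  | succ k ih => rw [fullTree, ih, Fsub]

/-- bottom-up version -/
def GB (n : ℕ) (A S : BT α) : BT α :=
  if h : n ≤ 1 then S
  else if n % 2 = 0 then GB (n / 2) (node A A) (node A S)
  else GB (n / 2) (node A A) (node (node A A) S)
termination_by n

lemma GB_one (A S : BT α) : GB 1 A S = S := by rw [GB]; simp

lemma GB_even {j : ℕ} (hj : 1 ≤ j) (A S : BT α) :
    GB (2 * j) A S = GB j (node A A) (node A S) := by
  rw [GB]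
  have h1 : ¬ (2 * j ≤ 1) := by omega
  have h2 : 2 * j % 2 = 0 := by omega
  have h3 : 2 * j / 2 = j := by omega
  simp only [h1, h2, h3, dite_false, if_true]

lemma GB_odd {j : ℕ} (hj : 1 ≤ j) (A S : BT α) :
    GB (2 * j + 1) A S = GB j (node A A) (node (node A A) S) := by
  rw [GB]
  have h1 : ¬ (2 * j + 1 ≤ 1) := by omega
  have h2 : ¬ ((2 * j + 1) % 2 = 0) := by omega
  have h3 : (2 * j + 1) / 2 = j := by omega
  simp only [h1, h2, h3, dite_false, if_false]

lemma GB_two (A S : BT α) : GB 2 A S = node A S := by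
  have := GB_even (j := 1) le_rfl A S
  rw [show 2 = 2 * 1 by norm_num, this, GB_one]

lemma GB_three (A S : BT α) : GB 3 A S = node (node A A) S := by
  have := GB_odd (j := 1) le_rfl A S
  rw [show 3 = 2 * 1 + 1 by norm_num, this, GB_one]

lemma Uc_shift (j i p : ℕ) (A S : BT α) : Uc (2 * j + i) p A S = Uc i (p + j) A S := by
  induction j generalizing p with
  | zero => simp
  | succ j ih =>
    rw [show 2 * (j + 1) + i = (2 * j + i) + 2 by ring]
    rw [Uc]
    · rw [ih (p + 1)]; congr 1; ring

lemma Uc_GB : ∀ (n : ℕ), 2 ≤ n → ∀ A S : BT α, Uc (n - 1) 0 A S = split (GB n A S) := by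
  intro n
  induction n using Nat.strong_induction_on with
  | _ n ih =>
    intro hn A S
    rcases Nat.even_or_odd' n with ⟨j, hj | hj⟩
    · subst hj
      rw [GB_even (by omega)]
      rcases Nat.lt_or_ge j 2 with h | h
      · have : j = 1 := by omega
        subst this
        rw [GB_one]
        show Uc 1 0 A S = _
        rw [Uc]; rfl
      · rw [← ih j (by omega) h]
        obtain ⟨i, rfl⟩ : ∃ i, j = i + 2 := ⟨j - 2, by omega⟩
        rw [show 2 * (i + 2) - 1 = 2 * (i + 1) + 1 by omega, Uc_shift,
          show 0 + (i + 1) = i + 1 by omega, Uc]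
        rfl
    · subst hj
      rw [GB_odd (by omega)]
      rcases Nat.lt_or_ge j 2 with h | h
      · have : j = 1 := by omega
        subst this
        rw [GB_one]
        show Uc 2 0 A S = _
        rw [Uc, Uc]; rfl
      · rw [← ih j (by omega) h]
        obtain ⟨i, rfl⟩ : ∃ i, j = i + 2 := ⟨j - 2, by omega⟩
        rw [show 2 * (i + 2) + 1 - 1 = 2 * (i + 2) + 0 by omega, Uc_shift,
          show 0 + (i + 2) = i + 2 by omega, Uc]
        rfl

lemma log_double {n : ℕ} (hn : 2 ≤ n) : Nat.log 2 (2 * n - 1) = Nat.log 2 (n - 1) + 1 := by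
  apply (Nat.log_eq_iff (by left; omega)).2
  have h1 : 2 ^ Nat.log 2 (n - 1) ≤ n - 1 := Nat.pow_log_le_self 2 (by omega)
  have h2 : n - 1 < 2 ^ (Nat.log 2 (n - 1) + 1) := Nat.lt_pow_succ_log_self (by norm_num) _
  constructor
  · rw [pow_succ]; omega
  · rw [pow_succ 2 (Nat.log 2 (n - 1) + 1)]; omega

/-- top-down description of `GB` -/
lemma GB_top : ∀ (n : ℕ), 3 ≤ n → ∀ A S : BT α, GB n A S =
    if n < 3 * 2 ^ (Nat.log 2 (n - 1) - 1) then
      node (Fsub (Nat.log 2 (n - 1) - 1) A) (GB (n - 2 ^ (Nat.log 2 (n - 1) - 1)) A S)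
    else node (Fsub (Nat.log 2 (n - 1)) A) (GB (n - 2 ^ (Nat.log 2 (n - 1))) A S) := by
  intro n
  induction n using Nat.strong_induction_on with
  | _ n ih =>
    intro hn A S
    rcases Nat.even_or_odd' n with ⟨j, hj | hj⟩
    · subst hj
      rw [GB_even (by omega)]
      rcases Nat.lt_or_ge j 3 with h | h
      · have : j = 2 := by omega
        subst this
        have hl : Nat.log 2 (2 * 2 - 1) = 1 := by decide
        rw [hl, GB_two]
        norm_num
        rw [GB_two]; exact ⟨rfl, rfl⟩
      · rw [ih j (by omega) h, log_double (by omega)]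
        set k := Nat.log 2 (j - 1) with hk
        have hk1 : 1 ≤ k := Nat.log_pos (by norm_num) (by omega)
        have h1 : 2 ^ k ≤ j - 1 := Nat.pow_log_le_self 2 (by omega)
        have h2 : j - 1 < 2 ^ (k + 1) := Nat.lt_pow_succ_log_self (by norm_num) _
        obtain ⟨i, hi⟩ : ∃ i, k = i + 1 := ⟨k - 1, by omega⟩
        rw [hi] at h1 h2 ⊢
        simp only [Nat.add_sub_cancel]
        by_cases hc : j < 3 * 2 ^ i
        · have hc' : 2 * j < 3 * 2 ^ (i + 1) := by rw [pow_succ]; omega
          rw [if_pos hc, if_pos hc', Fsub_node]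
          have e : 2 * j - 2 ^ (i + 1) = 2 * (j - 2 ^ i) := by rw [pow_succ]; omega
          rw [e, GB_even]
          rw [pow_succ] at h1; omega
        · have hc' : ¬ 2 * j < 3 * 2 ^ (i + 1) := by rw [pow_succ]; omega
          rw [if_neg hc, if_neg hc', Fsub_node]
          have e : 2 * j - 2 ^ (i + 1 + 1) = 2 * (j - 2 ^ (i + 1)) := by
            rw [pow_succ 2 (i + 1)]; omega
          rw [e, GB_even]
          omega
    · subst hj
      rw [GB_odd (by omega)]
      rcases Nat.lt_or_ge j 3 with h | h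
      · have : j = 1 ∨ j = 2 := by omega
        rcases this with rfl | rfl
        · have hl : Nat.log 2 (2 * 1 + 1 - 1) = 1 := by decide
          rw [hl]
          norm_num
          rw [GB_one, GB_one]; rfl
        · have hl : Nat.log 2 (2 * 2 + 1 - 1) = 2 := by decide
          rw [hl]
          norm_num
          rw [GB_two, GB_three]; rfl
      · have e0 : 2 * j + 1 - 1 = 2 * j := by omega
        rw [e0]
        have hlog : Nat.log 2 (2 * j) = Nat.log 2 j + 1 := by
          rw [mul_comm, Nat.log_mul_base (by norm_num) (by omega)]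
        rw [hlog, ih j (by omega) h]
        -- compare log j and log (j-1)
        set k := Nat.log 2 (j - 1) with hk
        have hk1 : 1 ≤ k := Nat.log_pos (by norm_num) (by omega)
        have h1 : 2 ^ k ≤ j - 1 := Nat.pow_log_le_self 2 (by omega)
        have h2 : j - 1 < 2 ^ (k + 1) := Nat.lt_pow_succ_log_self (by norm_num) _
        obtain ⟨i, hi⟩ : ∃ i, k = i + 1 := ⟨k - 1, by omega⟩
        rw [hi] at h1 h2 ⊢
        simp only [Nat.add_sub_cancel]
        rcases Nat.lt_or_ge j (2 ^ (i + 1 + 1)) with hlt | hge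
        · -- not a power of two
          have hlj : Nat.log 2 j = i + 1 := by
            apply (Nat.log_eq_iff (by left; omega)).2
            constructor
            · omega
            · exact hlt
          rw [hlj]
          by_cases hc : j < 3 * 2 ^ i
          · have hc' : 2 * j + 1 < 3 * 2 ^ (i + 1) := by rw [pow_succ]; omega
            rw [if_pos hc, if_pos hc', Fsub_node]
            have e : 2 * j + 1 - 2 ^ (i + 1) = 2 * (j - 2 ^ i) + 1 := by
              rw [pow_succ] at h1 ⊢; omega
            rw [e, GB_odd]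
            rw [pow_succ] at h1; omega
          · have hc' : ¬ 2 * j + 1 < 3 * 2 ^ (i + 1) := by rw [pow_succ]; omega
            rw [if_neg hc, if_neg hc', Fsub_node]
            have e : 2 * j + 1 - 2 ^ (i + 1 + 1) = 2 * (j - 2 ^ (i + 1)) + 1 := by
              rw [pow_succ 2 (i + 1)]; omega
            rw [e, GB_odd]
            omega
        · -- j = 2^(i+2)
          have hj : j = 2 ^ (i + 2) := by
            have : i + 1 + 1 = i + 2 := by ring
            rw [this] at h2 hge; omega
          have hlj : Nat.log 2 j = i + 2 := by rw [hj, Nat.log_pow (by norm_num)]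
          rw [hlj]
          have p1 : 2 ^ (i + 2) = 4 * 2 ^ i := by rw [pow_add]; ring
          have p2 : 2 ^ (i + 1) = 2 * 2 ^ i := by rw [pow_add]; ring
          have hpos : 0 < 2 ^ i := Nat.pow_pos (by norm_num)
          have hc : ¬ j < 3 * 2 ^ i := by rw [hj, p1]; omega
          have hc' : 2 * j + 1 < 3 * 2 ^ (i + 2) := by rw [hj, p1]; omega
          rw [if_neg hc, if_pos hc', Fsub_node]
          have e : 2 * j + 1 - 2 ^ (i + 2) = 2 * (j - 2 ^ (i + 1)) + 1 := by
            rw [hj, p1, p2]; omega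
          rw [e, GB_odd]
          rw [hj, p1, p2]; omega

lemma GB_pow (k : ℕ) (A : BT α) : GB (2 ^ k) A A = Fsub k A := by
  induction k generalizing A with
  | zero => rw [pow_zero, GB_one]; rfl
  | succ k ih =>
    rw [pow_succ, mul_comm, GB_even (Nat.pow_pos (by norm_num)), ih, Fsub_node]

lemma goodTree_RC : ∀ n : ℕ, 1 ≤ n → RC (goodTree n) (GB n o o) := by
  intro n
  induction n using Nat.strong_induction_on with
  | _ n ih =>
    intro hn
    rcases Nat.lt_or_ge n 3 with h | h
    · have : n = 1 ∨ n = 2 := by omega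
      rcases this with rfl | rfl
      · rw [GB_one, goodTree]; simp; exact RC.refl _
      · rw [GB_two, goodTree]; simp; exact RC.refl _
    · rw [goodTree, GB_top n h]
      have h1 : ¬ n ≤ 1 := by omega
      have h2 : ¬ n = 2 := by omega
      simp only [h1, h2, dite_false]
      set k := Nat.log 2 (n - 1) with hk
      have hk1 : 1 ≤ k := Nat.log_pos (by norm_num) (by omega)
      have h3 : 2 ^ k ≤ n - 1 := Nat.pow_log_le_self 2 (by omega)
      have h4 : n - 1 < 2 ^ (k + 1) := Nat.lt_pow_succ_log_self (by norm_num) _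
      obtain ⟨i, hi⟩ : ∃ i, k = i + 1 := ⟨k - 1, by omega⟩
      rw [hi] at h3 h4 ⊢
      simp only [Nat.add_sub_cancel]
      have p2 : 2 ^ (i + 1) = 2 * 2 ^ i := by rw [pow_add]; ring
      have p3 : 2 ^ (i + 1 + 1) = 4 * 2 ^ i := by rw [pow_add, pow_add]; ring
      have hpos : 0 < 2 ^ i := Nat.pow_pos (by norm_num)
      rw [p2] at h3
      rw [p3] at h4
      rcases lt_trichotomy n (3 * 2 ^ i) with hlt | heq | hgt
      · rw [if_pos hlt.le, if_pos hlt, fullTree_eq]
        exact (RC.refl _).node (ih _ (by omega) (by omega))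
      · rw [if_pos heq.le, if_neg (by omega), fullTree_eq]
        have e1 : n - 2 ^ i = 2 ^ (i + 1) := by omega
        have e2 : n - 2 ^ (i + 1) = 2 ^ i := by omega
        rw [e1, e2, GB_pow]
        have h5 := ih (2 ^ (i + 1)) (by omega) (by omega)
        rw [GB_pow] at h5
        exact ((RC.refl _).node h5).trans (RC.swap _ _)
      · rw [if_neg (by omega), if_neg (by omega), fullTree_eq]
        exact (RC.refl _).node (ih _ (by omega) (by omega))

lemma goodTree_node {n : ℕ} (hn : 2 ≤ n) : ∃ l r, goodTree n = node l r := by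
  rw [goodTree]
  have h1 : ¬ n ≤ 1 := by omega
  simp only [h1, dite_false]
  split_ifs
  · exact ⟨_, _, rfl⟩
  · exact ⟨_, _, rfl⟩
  · exact ⟨_, _, rfl⟩

/-- `T_d` is the greedy tree. -/
theorem tdPair_eq {d : ℕ} (hd : 2 ≤ d) : UEq (tdPair d) (Uc (d - 1) 0 o o) := by
  rw [Uc_GB d hd, tdPair]
  rcases Nat.lt_or_ge d 3 with h | h
  · have : d = 2 := by omega
    subst this
    rw [GB_two, goodTree]; simp; exact UEq.refl _
  · rw [goodTree, GB_top d h]
    have h1 : ¬ d ≤ 1 := by omega
    have h2 : ¬ d = 2 := by omega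
    simp only [h1, h2, dite_false]
    set k := Nat.log 2 (d - 1) with hk
    have hk1 : 1 ≤ k := Nat.log_pos (by norm_num) (by omega)
    have h3 : 2 ^ k ≤ d - 1 := Nat.pow_log_le_self 2 (by omega)
    have h4 : d - 1 < 2 ^ (k + 1) := Nat.lt_pow_succ_log_self (by norm_num) _
    obtain ⟨i, hi⟩ : ∃ i, k = i + 1 := ⟨k - 1, by omega⟩
    rw [hi] at h3 h4 ⊢
    simp only [Nat.add_sub_cancel]
    have p2 : 2 ^ (i + 1) = 2 * 2 ^ i := by rw [pow_add]; ring
    have p3 : 2 ^ (i + 1 + 1) = 4 * 2 ^ i := by rw [pow_add, pow_add]; ring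
    have hpos : 0 < 2 ^ i := Nat.pow_pos (by norm_num)
    rw [p2] at h3
    rw [p3] at h4
    rcases lt_trichotomy d (3 * 2 ^ i) with hlt | heq | hgt
    · rw [if_pos hlt.le, if_pos hlt, fullTree_eq]
      exact (RC.refl _).pair (goodTree_RC _ (by omega))
    · rw [if_pos heq.le, if_neg (by omega), fullTree_eq]
      have e1 : d - 2 ^ i = 2 ^ (i + 1) := by omega
      have e2 : d - 2 ^ (i + 1) = 2 ^ i := by omega
      rw [e1, e2, GB_pow]
      have h5 := goodTree_RC (2 ^ (i + 1)) (by omega)
      rw [GB_pow] at h5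
      exact ((RC.refl _).pair h5).trans (UEq.comm _ _)
    · rw [if_neg (by omega), if_neg (by omega), fullTree_eq]
      exact (RC.refl _).pair (goodTree_RC _ (by omega))

end Pool.Agent.Helper29.Steiner
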